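import Pool.Agent.helper82.LEQ.Spec

/-! # Row CA2 of project LEQ: expansion of the weight -/

set_option autoImplicit false

namespace LEQ

open scoped BigOperators
open QS (Lef EAb)

open Classical in
/-- the weight of the subset `J` -/
noncomputable def CA2_w {G : Type} [Group G] {ι : Type} (L : ι → Subgroup G) (U : ι → Set G) (c : G)
    (J : Finset ι) (g : G) : ℂ :=
  if g * c⁻¹ ∈ NJ L Set.univ ∧ ∀ j ∈ J, pr L j g ∈ U j then 1 else 0

theorem CA2_prod {ι : Type} [Fintype ι] (P : ι → Prop) (z : ℂ) :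
    z ^ Nat.card {i : ι // P i} = ∑ J : Finset ι, (z - 1) ^ J.card * (open Classical in if ∀ j ∈ J, P j then (1 : ℂ) else 0) := by
  classical
  have h1 : z ^ Nat.card {i : ι // P i} = ∏ i : ι, (1 + if P i then z - 1 else 0) := by
    have e1 : ∀ i : ι, (1 + if P i then z - 1 else 0) = if P i then z else 1 := by
      intro i
      split_ifs
      · ring
      · ring
    rw [Finset.prod_congr rfl fun i _ => e1 i, Finset.prod_ite, Finset.prod_const, Finset.prod_const_one,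
      mul_one, Nat.card_eq_fintype_card, Fintype.card_subtype]
  rw [h1, Finset.prod_one_add, Finset.powerset_univ]
  refine Finset.sum_congr rfl fun J _ => ?_
  by_cases hJ : ∀ j ∈ J, P j
  · rw [if_pos hJ, mul_one, Finset.prod_congr rfl fun j hj => if_pos (hJ j hj), Finset.prod_const]
  · rw [if_neg hJ, mul_zero]
    push Not at hJ
    obtain ⟨j, hj, hj'⟩ := hJ
    exact Finset.prod_eq_zero hj (if_neg hj')

theorem CA2_exp {G : Type} [Group G] {ι : Type} [Fintype ι] (L : ι → Subgroup G) (U : ι → Set G) (z : ℂ)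
    (c g : G) : wt L U z c g = ∑ J : Finset ι, (z - 1) ^ J.card * CA2_w L U c J g := by
  classical
  unfold wt CA2_w nu
  by_cases h : g * c⁻¹ ∈ NJ L Set.univ
  · rw [if_pos h, CA2_prod]
    refine Finset.sum_congr rfl fun J _ => ?_
    by_cases hJ : ∀ j ∈ J, pr L j g ∈ U j
    · rw [if_pos hJ, if_pos ⟨h, hJ⟩]
    · rw [if_neg hJ, if_neg fun hc => hJ hc.2]
  · rw [if_neg h]
    symm
    refine Finset.sum_eq_zero fun J _ => ?_
    rw [if_neg fun hc => h hc.1, mul_zero]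

theorem CA2_le {G : Type} [Group G] {ι : Type} (L : ι → Subgroup G) (i : ι) : L i ≤ NJ L Set.univ :=
  le_iSup₂_of_le i (Set.mem_univ i) le_rfl

theorem CA2_one {G : Type} [Group G] {ι : Type} (L : ι → Subgroup G) (i : ι) : NJ L {i} = L i := by
  unfold NJ
  exact iSup_singleton

theorem CA2_zero (h1 : AC_stmt) (h2 : NF_stmt) (h3 : DJ_stmt) (h4 : DE_stmt) (h5 : PD_stmt)
    (h6 : SPL_stmt) (G : Type) [Group G] [Finite G] (p : ℕ) (hp : p.Prime) (ι : Type) [Finite ι]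
    (L : ι → Subgroup G) (hL : Fam L p) (U : ι → Set G) (c : G)
    (E : Subgroup G) (hE : EAb p E) (hN : ∀ i, Nz E (L i)) (J : Finset ι) (i : ι) (hi : i ∉ J) :
    ∑ g ∈ FS (fun g : G => g ∈ Np L ⊓ Cn E), CA2_w L U c J g * (Ls p (Np L ⊓ Cn E) g : ℂ) = 0 := by
  obtain ⟨a1, a2, a3, a4, a5, a6, a7⟩ := h1 G p hp ι L hL
  obtain ⟨b1, -, -⟩ := h2 G p hp ι L hL
  obtain ⟨c1, -, -⟩ := h3 G p hp ι L hL
  obtain ⟨d1, d2⟩ := c1 {i}
  have hA : NJ L {i} = L i := CA2_one L i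
  have hNA : Nz E (NJ L {i}) := by rw [hA]; exact hN i
  have hNB : Nz E (BJ L {i}) := by
    intro e he x
    have key : ∀ (e : G), e ∈ E → ∀ x ∈ BJ L {i}, e * x * e⁻¹ ∈ BJ L {i} := by
      rintro e he x ⟨hx1, hx2⟩
      refine ⟨b1.conj_mem x hx1 e, ?_⟩
      intro j hj z hz
      have hj' : j = i := hj
      subst hj'
      have hz' : e⁻¹ * z * e ∈ L j := by
        have := (hN j e⁻¹ (E.inv_mem he) z).1 hz
        rwa [inv_inv] at this
      have h := hx2 j rfl _ hz'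
      have e1 : e * x * e⁻¹ * z = e * (x * (e⁻¹ * z * e)) * e⁻¹ := by group
      have e2 : z * (e * x * e⁻¹) = e * ((e⁻¹ * z * e) * x) * e⁻¹ := by group
      rw [e1, e2, h]
    refine ⟨key e he x, fun hx => ?_⟩
    have := key e⁻¹ (E.inv_mem he) _ hx
    have e1 : e⁻¹ * (e * x * e⁻¹) * e⁻¹⁻¹ = x := by group
    rwa [e1] at this
  obtain ⟨f1, f2⟩ := h4 G (NJ L {i}) (BJ L {i}) E d1 hNA hNB
  rw [d2] at f1
  have hcard : p ∣ Nat.card ((NJ L {i} ⊓ Cn E : Subgroup G)) := by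
    refine h5 G p hp (NJ L {i}) E hE hNA ?_
    rw [hA]
    exact hL.dvd i
  have hm := h6 G p hp (NJ L {i} ⊓ Cn E) (BJ L {i} ⊓ Cn E) f2 hcard (CA2_w L U c J) ?_
  · rw [← f1] at hm
    exact hm
  · intro x hx y hy
    have hx1 : x ∈ L i := by
      have := hx.1
      rwa [hA] at this
    have hy1 : y ∈ Np L := hy.1.1
    have hx2 : x ∈ Np L := (a4 i x hx1).2.1
    have e1 : ∀ j ∈ J, pr L j (x * y) = pr L j y := by
      intro j hj
      rw [a3 j x hx2 y hy1, (a4 i x hx1).2.2 j (fun h => hi (h ▸ hj)), one_mul]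
    have e2 : x * y * c⁻¹ ∈ NJ L Set.univ ↔ y * c⁻¹ ∈ NJ L Set.univ := by
      rw [mul_assoc]
      exact Subgroup.mul_mem_cancel_left _ (CA2_le L i hx1)
    unfold CA2_w
    by_cases hc : y * c⁻¹ ∈ NJ L Set.univ ∧ ∀ j ∈ J, pr L j y ∈ U j
    · rw [if_pos hc, if_pos ⟨e2.2 hc.1, fun j hj => by rw [e1 j hj]; exact hc.2 j hj⟩]
    · rw [if_neg hc, if_neg]
      rintro ⟨g1, g2⟩
      exact hc ⟨e2.1 g1, fun j hj => by rw [← e1 j hj]; exact g2 j hj⟩

theorem CA2 (h1 : AC_stmt) (h2 : NF_stmt) (h3 : DJ_stmt) (h4 : DE_stmt) (h5 : PD_stmt)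
    (h6 : SPL_stmt) : CA2_stmt := by
  intro G _ _ p hp ι _ L hL U hU z c hc E hE hN
  classical
  have : Fintype ι := Fintype.ofFinite ι
  unfold TT
  have e1 : ∑ g ∈ FS (fun g : G => g ∈ Np L ⊓ Cn E), wt L U z c g * (Ls p (Np L ⊓ Cn E) g : ℂ) =
      ∑ J : Finset ι, (z - 1) ^ J.card *
        ∑ g ∈ FS (fun g : G => g ∈ Np L ⊓ Cn E), CA2_w L U c J g * (Ls p (Np L ⊓ Cn E) g : ℂ) := by
    rw [Finset.sum_congr rfl fun g _ => by rw [CA2_exp L U z c g, Finset.sum_mul], Finset.sum_comm]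
    refine Finset.sum_congr rfl fun J _ => ?_
    rw [Finset.mul_sum]
    exact Finset.sum_congr rfl fun g _ => by rw [mul_assoc]
  rw [e1, Finset.sum_eq_single (Finset.univ : Finset ι)]
  · rw [Finset.card_univ, Nat.card_eq_fintype_card]
    congr 1
    unfold CA2_w GU
    simp only [ite_mul, one_mul, zero_mul]
    rw [← Finset.sum_filter]
    refine Finset.sum_congr ?_ fun _ _ => rfl
    ext g
    rw [Finset.mem_filter, mem_FS, mem_FS]
    constructor
    · rintro ⟨g1, g2, g3⟩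
      exact ⟨g1, g2, fun i => g3 i (Finset.mem_univ i)⟩
    · rintro ⟨g1, g2, g3⟩
      exact ⟨g1, g2, fun i _ => g3 i⟩
  · intro J _ hJ
    have : ∃ i, i ∉ J := by
      by_contra hcon
      push Not at hcon
      exact hJ (Finset.eq_univ_iff_forall.2 hcon)
    obtain ⟨i, hi⟩ := this
    rw [CA2_zero h1 h2 h3 h4 h5 h6 G p hp ι L hL U c E hE hN J i hi, mul_zero]
  · intro h
    exact absurd (Finset.mem_univ _) h

end LEQ
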